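import Mathlib

/-! Riemann sums on the unit square, with parameters. -/

set_option autoImplicit false

namespace Pool.Agent.Y379.AF

open Filter Topology

theorem riem1 {L : ℕ} (hL : 1 ≤ L) (f : ℝ → ℝ) (hf : Continuous f) {ε : ℝ}
    (hm : ∀ x ∈ Set.Icc (0 : ℝ) 1, ∀ y ∈ Set.Icc (0 : ℝ) 1, |x - y| ≤ 1 / L → |f x - f y| ≤ ε) :
    |(∑ t ∈ Finset.range L, f (t / L)) / L - ∫ x in (0 : ℝ)..1, f x| ≤ ε := by
  have hL0 : (0 : ℝ) < L := by exact_mod_cast hL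
  have h1 : ∑ t ∈ Finset.range L, ∫ x in ((t : ℝ) / L)..(((t + 1 : ℕ) : ℝ) / L), f x =
      ∫ x in (0 : ℝ)..1, f x := by
    have h2 := intervalIntegral.sum_integral_adjacent_intervals (f := f) (μ := MeasureTheory.volume)
      (a := fun t : ℕ => (t : ℝ) / L) (n := L) (fun k _ => hf.intervalIntegrable _ _)
    rw [h2]
    simp [hL0.ne']
  have h3 : (∑ t ∈ Finset.range L, f (t / L)) / L = ∑ t ∈ Finset.range L,
      ∫ x in ((t : ℝ) / L)..(((t + 1 : ℕ) : ℝ) / L), f (t / L) := by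
    rw [Finset.sum_div]
    apply Finset.sum_congr rfl
    intro t _
    rw [intervalIntegral.integral_const, smul_eq_mul]
    push_cast
    field_simp
    ring
  rw [h3, ← h1, ← Finset.sum_sub_distrib]
  refine (Finset.abs_sum_le_sum_abs _ _).trans ?_
  have h4 : ∀ t ∈ Finset.range L, |(∫ x in ((t : ℝ) / L)..(((t + 1 : ℕ) : ℝ) / L), f (t / L)) -
      ∫ x in ((t : ℝ) / L)..(((t + 1 : ℕ) : ℝ) / L), f x| ≤ ε / L := by
    intro t ht
    rw [Finset.mem_range] at ht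
    have ht1 : ((t : ℝ) + 1) / L ≤ 1 := by
      rw [div_le_one hL0]
      exact_mod_cast ht
    have ht0 : (t : ℝ) / L ≤ ((t : ℝ) + 1) / L := by gcongr; linarith
    have ht00 : 0 ≤ (t : ℝ) / L := by positivity
    rw [← intervalIntegral.integral_sub (by simp) (hf.intervalIntegrable _ _)]
    have h5 : ∀ x ∈ Set.uIoc ((t : ℝ) / L) (((t + 1 : ℕ) : ℝ) / L), ‖f (t / L) - f x‖ ≤ ε := by
      intro x hx
      push_cast at hx
      rw [Set.uIoc_of_le ht0, Set.mem_Ioc] at hx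
      rw [Real.norm_eq_abs]
      apply hm _ ⟨ht00, ht0.trans ht1⟩ _ ⟨ht00.trans hx.1.le, hx.2.trans ht1⟩
      have h6 : ((t : ℝ) + 1) / L = t / L + 1 / L := by ring
      rw [abs_le]
      constructor <;> linarith [hx.1, hx.2]
    have h7 := intervalIntegral.norm_integral_le_of_norm_le_const h5
    rw [Real.norm_eq_abs] at h7
    refine h7.trans (le_of_eq ?_)
    have h8 : (((t + 1 : ℕ) : ℝ) / L) - (t : ℝ) / L = 1 / L := by push_cast; ring
    rw [h8, abs_of_pos (by positivity)]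
    ring
  refine (Finset.sum_le_sum h4).trans (le_of_eq ?_)
  rw [Finset.sum_const, Finset.card_range, nsmul_eq_mul]
  field_simp

theorem riem2 (Φ : ℝ × ℝ × ℝ × ℝ → ℝ) (hΦ : Continuous Φ) (p : ℕ → ℝ) (q : ℝ)
    (hp : Tendsto p atTop (𝓝 q)) :
    Tendsto (fun L : ℕ => (∑ t ∈ Finset.range L, ∑ s ∈ Finset.range L,
      Φ (p L, 1 / (L : ℝ), (t : ℝ) / L, (s : ℝ) / L)) / (L : ℝ) ^ 2) atTop
      (𝓝 (∫ x in (0 : ℝ)..1, ∫ y in (0 : ℝ)..1, Φ (q, 0, x, y))) := by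
  rw [Metric.tendsto_atTop]
  intro ε' hε'
  set ε := ε' / 4 with hεdef
  have hε : 0 < ε := by positivity
  set K : Set (ℝ × ℝ × ℝ × ℝ) := Set.Icc (q - 1) (q + 1) ×ˢ Set.Icc (0 : ℝ) 1 ×ˢ
    Set.Icc (0 : ℝ) 1 ×ˢ Set.Icc (0 : ℝ) 1 with hK
  have hKc : IsCompact K := isCompact_Icc.prod (isCompact_Icc.prod (isCompact_Icc.prod isCompact_Icc))
  have huc := hKc.uniformContinuousOn_of_continuous hΦ.continuousOn
  rw [Metric.uniformContinuousOn_iff] at huc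
  obtain ⟨δ, hδ, hmod⟩ := huc ε hε
  rw [Metric.tendsto_atTop] at hp
  obtain ⟨L1, hL1⟩ := hp (min δ 1) (by positivity)
  obtain ⟨L2, hL2⟩ := exists_nat_gt (1 / δ)
  refine ⟨max (max L1 L2) 1, ?_⟩
  intro L hL
  have hLL1 : L1 ≤ L := (le_max_left _ _).trans ((le_max_left _ _).trans hL)
  have hLL2 : L2 ≤ L := (le_max_right _ _).trans ((le_max_left _ _).trans hL)
  have hLL : 1 ≤ L := (le_max_right _ _).trans hL
  have hL0 : (0 : ℝ) < L := by exact_mod_cast hLL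
  have hLr : (1 : ℝ) ≤ L := by exact_mod_cast hLL
  have hinv : 1 / (L : ℝ) < δ := by
    rw [div_lt_iff₀ hL0]
    have h1 : (L2 : ℝ) ≤ L := by exact_mod_cast hLL2
    rw [div_lt_iff₀ hδ] at hL2
    nlinarith
  have hinv1 : 1 / (L : ℝ) ≤ 1 := by rw [div_le_one hL0]; exact hLr
  have hinv0 : 0 < 1 / (L : ℝ) := by positivity
  have hpL := hL1 L hLL1
  rw [Real.dist_eq] at hpL
  have hpL1 : |p L - q| < δ := lt_of_lt_of_le hpL (min_le_left _ _)
  have hpL2 : |p L - q| < 1 := lt_of_lt_of_le hpL (min_le_right _ _)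
  have hqK : q ∈ Set.Icc (q - 1) (q + 1) := ⟨by linarith, by linarith⟩
  have hpK : p L ∈ Set.Icc (q - 1) (q + 1) := by
    rw [abs_lt] at hpL2
    constructor <;> linarith [hpL2.1, hpL2.2]
  have h0K : (0 : ℝ) ∈ Set.Icc (0 : ℝ) 1 := ⟨le_rfl, zero_le_one⟩
  have hiK : 1 / (L : ℝ) ∈ Set.Icc (0 : ℝ) 1 := ⟨hinv0.le, hinv1⟩
  -- step 1: change of parameters
  have hs1 : ∀ x ∈ Set.Icc (0 : ℝ) 1, ∀ y ∈ Set.Icc (0 : ℝ) 1,
      |Φ (p L, 1 / (L : ℝ), x, y) - Φ (q, 0, x, y)| ≤ ε := by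
    intro x hx y hy
    have h1 := hmod (p L, 1 / (L : ℝ), x, y) ⟨hpK, hiK, hx, hy⟩ (q, 0, x, y) ⟨hqK, h0K, hx, hy⟩ (by
      rw [Prod.dist_eq, Prod.dist_eq, Prod.dist_eq]
      simp only [dist_self, Real.dist_eq, sub_zero, max_lt_iff]
      refine ⟨hpL1, ?_, hδ, hδ⟩
      rw [abs_of_pos hinv0]; exact hinv)
    rw [Real.dist_eq] at h1
    exact h1.le
  -- step 2: moduli
  have hs2 : ∀ y ∈ Set.Icc (0 : ℝ) 1, ∀ y' ∈ Set.Icc (0 : ℝ) 1, |y - y'| ≤ 1 / L →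
      ∀ x ∈ Set.Icc (0 : ℝ) 1, |Φ (q, 0, x, y) - Φ (q, 0, x, y')| ≤ ε := by
    intro y hy y' hy' hyy x hx
    have h1 := hmod (q, 0, x, y) ⟨hqK, h0K, hx, hy⟩ (q, 0, x, y') ⟨hqK, h0K, hx, hy'⟩ (by
      rw [Prod.dist_eq, Prod.dist_eq, Prod.dist_eq]
      simp only [dist_self, Real.dist_eq, max_lt_iff]
      exact ⟨hδ, hδ, hδ, lt_of_le_of_lt hyy hinv⟩)
    rw [Real.dist_eq] at h1
    exact h1.le
  have hs3 : ∀ x ∈ Set.Icc (0 : ℝ) 1, ∀ x' ∈ Set.Icc (0 : ℝ) 1, |x - x'| ≤ 1 / L →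
      ∀ y ∈ Set.Icc (0 : ℝ) 1, |Φ (q, 0, x, y) - Φ (q, 0, x', y)| ≤ ε := by
    intro x hx x' hx' hxx y hy
    have h1 := hmod (q, 0, x, y) ⟨hqK, h0K, hx, hy⟩ (q, 0, x', y) ⟨hqK, h0K, hx', hy⟩ (by
      rw [Prod.dist_eq, Prod.dist_eq, Prod.dist_eq]
      simp only [dist_self, Real.dist_eq, max_lt_iff]
      exact ⟨hδ, hδ, lt_of_le_of_lt hxx hinv, hδ⟩)
    rw [Real.dist_eq] at h1
    exact h1.le
  have hfx : ∀ x : ℝ, Continuous (fun y => Φ (q, 0, x, y)) := fun x => by fun_prop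
  set J : ℝ → ℝ := fun x => ∫ y in (0 : ℝ)..1, Φ (q, 0, x, y) with hJ
  have hJc : Continuous J := by
    apply intervalIntegral.continuous_parametric_intervalIntegral_of_continuous'
    exact hΦ.comp (by fun_prop)
  have hJm : ∀ x ∈ Set.Icc (0 : ℝ) 1, ∀ x' ∈ Set.Icc (0 : ℝ) 1, |x - x'| ≤ 1 / L →
      |J x - J x'| ≤ ε := by
    intro x hx x' hx' hxx
    simp only [hJ]
    rw [← intervalIntegral.integral_sub ((hfx x).intervalIntegrable _ _)
      ((hfx x').intervalIntegrable _ _)]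
    have h1 := intervalIntegral.norm_integral_le_of_norm_le_const (a := (0 : ℝ)) (b := 1)
      (f := fun y => Φ (q, 0, x, y) - Φ (q, 0, x', y)) (C := ε) (by
      intro y hy
      rw [Set.uIoc_of_le zero_le_one, Set.mem_Ioc] at hy
      rw [Real.norm_eq_abs]
      exact hs3 x hx x' hx' hxx y ⟨hy.1.le, hy.2⟩)
    rw [Real.norm_eq_abs] at h1
    simpa using h1
  have hrow : ∀ t ∈ Finset.range L, |(∑ s ∈ Finset.range L,
      Φ (p L, 1 / (L : ℝ), (t : ℝ) / L, (s : ℝ) / L)) / L - J (t / L)| ≤ 2 * ε := by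
    intro t ht
    rw [Finset.mem_range] at ht
    have htI : ((t : ℝ) / L) ∈ Set.Icc (0 : ℝ) 1 := by
      refine ⟨by positivity, ?_⟩
      rw [div_le_one hL0]
      exact_mod_cast ht.le
    have h1 := riem1 hLL (fun y => Φ (q, 0, (t : ℝ) / L, y)) (hfx _) (ε := ε)
      (fun y hy y' hy' h => hs2 y hy y' hy' h _ htI)
    have h2 : |(∑ s ∈ Finset.range L, Φ (p L, 1 / (L : ℝ), (t : ℝ) / L, (s : ℝ) / L)) / L -
        (∑ s ∈ Finset.range L, Φ (q, 0, (t : ℝ) / L, (s : ℝ) / L)) / L| ≤ ε := by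
      rw [← sub_div, ← Finset.sum_sub_distrib, abs_div, abs_of_pos hL0, div_le_iff₀ hL0]
      refine (Finset.abs_sum_le_sum_abs _ _).trans ?_
      refine (Finset.sum_le_sum (g := fun _ => ε) ?_).trans (le_of_eq ?_)
      · intro s hs
        rw [Finset.mem_range] at hs
        refine hs1 _ htI _ ⟨by positivity, ?_⟩
        rw [div_le_one hL0]
        exact_mod_cast hs.le
      · rw [Finset.sum_const, Finset.card_range, nsmul_eq_mul]
        ring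
    calc |(∑ s ∈ Finset.range L, Φ (p L, 1 / (L : ℝ), (t : ℝ) / L, (s : ℝ) / L)) / L - J (t / L)|
        ≤ |(∑ s ∈ Finset.range L, Φ (p L, 1 / (L : ℝ), (t : ℝ) / L, (s : ℝ) / L)) / L -
          (∑ s ∈ Finset.range L, Φ (q, 0, (t : ℝ) / L, (s : ℝ) / L)) / L| +
          |(∑ s ∈ Finset.range L, Φ (q, 0, (t : ℝ) / L, (s : ℝ) / L)) / L - J (t / L)| :=
          abs_sub_le _ _ _
      _ ≤ ε + ε := add_le_add h2 h1
      _ = 2 * ε := by ring
  have hJs := riem1 hLL J hJc hJm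
  have hmain : |(∑ t ∈ Finset.range L, ∑ s ∈ Finset.range L,
      Φ (p L, 1 / (L : ℝ), (t : ℝ) / L, (s : ℝ) / L)) / (L : ℝ) ^ 2 -
      (∑ t ∈ Finset.range L, J (t / L)) / L| ≤ 2 * ε := by
    have h1 : (∑ t ∈ Finset.range L, ∑ s ∈ Finset.range L,
        Φ (p L, 1 / (L : ℝ), (t : ℝ) / L, (s : ℝ) / L)) / (L : ℝ) ^ 2 =
        (∑ t ∈ Finset.range L, (∑ s ∈ Finset.range L,
        Φ (p L, 1 / (L : ℝ), (t : ℝ) / L, (s : ℝ) / L)) / L) / L := by
      rw [← Finset.sum_div, div_div, sq]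
    rw [h1, ← sub_div, ← Finset.sum_sub_distrib, abs_div, abs_of_pos hL0, div_le_iff₀ hL0]
    refine (Finset.abs_sum_le_sum_abs _ _).trans ?_
    refine (Finset.sum_le_sum hrow).trans (le_of_eq ?_)
    rw [Finset.sum_const, Finset.card_range, nsmul_eq_mul]
    ring
  rw [Real.dist_eq]
  calc |(∑ t ∈ Finset.range L, ∑ s ∈ Finset.range L,
      Φ (p L, 1 / (L : ℝ), (t : ℝ) / L, (s : ℝ) / L)) / (L : ℝ) ^ 2 -
      ∫ x in (0 : ℝ)..1, J x|
      ≤ |(∑ t ∈ Finset.range L, ∑ s ∈ Finset.range L,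
      Φ (p L, 1 / (L : ℝ), (t : ℝ) / L, (s : ℝ) / L)) / (L : ℝ) ^ 2 -
      (∑ t ∈ Finset.range L, J (t / L)) / L| +
      |(∑ t ∈ Finset.range L, J (t / L)) / L - ∫ x in (0 : ℝ)..1, J x| := abs_sub_le _ _ _
    _ ≤ 2 * ε + ε := add_le_add hmain hJs
    _ < ε' := by rw [hεdef]; linarith

/-- `L sinh (p_L / L)` tends to `q` -/
theorem sinh_lim (p : ℕ → ℝ) (q : ℝ) (hq : 0 < q) (hp : Tendsto p atTop (𝓝 q)) :
    Tendsto (fun L : ℕ => (L : ℝ) * Real.sinh (p L / L)) atTop (𝓝 q) := by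
  have h1 := (Real.hasDerivAt_sinh 0)
  rw [hasDerivAt_iff_tendsto_slope_zero] at h1
  simp only [zero_add, Real.sinh_zero, sub_zero, smul_eq_mul, Real.cosh_zero] at h1
  have h2 : Tendsto (fun L : ℕ => p L / (L : ℝ)) atTop (𝓝[≠] 0) := by
    rw [tendsto_nhdsWithin_iff]
    refine ⟨?_, ?_⟩
    · have h3 : Tendsto (fun L : ℕ => p L * (L : ℝ)⁻¹) atTop (𝓝 (q * 0)) :=
        hp.mul tendsto_inv_atTop_nhds_zero_nat
      rw [mul_zero] at h3
      exact h3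
    · filter_upwards [hp.eventually (lt_mem_nhds hq), eventually_ge_atTop 1] with L hL hL1
      have hL0 : (0 : ℝ) < L := by exact_mod_cast hL1
      exact (div_pos hL hL0).ne'
  have h4 := (h1.comp h2).mul hp
  rw [one_mul] at h4
  refine h4.congr' ?_
  filter_upwards [hp.eventually (lt_mem_nhds hq), eventually_ge_atTop 1] with L hL hL1
  have hL0 : (0 : ℝ) < L := by exact_mod_cast hL1
  simp only [Function.comp]
  field_simp

end Pool.Agent.Y379.AF
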