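import Mathlib
import Pool.Agent.Y16.AF.StmB
import Pool.Agent.Y379.AF.Riem

/-! (YL): scaling limit of `YY`. -/

set_option autoImplicit false

namespace Pool.Agent.Y379.AF

open Filter Topology Pool.Agent.Y16.AF

/-- numerator of the Dirichlet Green function -/
noncomputable def nD (p x y : ℝ) : ℝ := Real.sinh (p * min x y) * Real.sinh (p * (1 - max x y))

/-- numerator of the Neumann Green function -/
noncomputable def nN (p e x y : ℝ) : ℝ :=
  Real.cosh (p * (min x y + e / 2)) * Real.cosh (p * (1 - e / 2 - max x y))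

theorem GD_eq {L : ℕ} (hL : 1 ≤ L) (p : ℝ) (t s : ℕ) :
    GD L (p / L) t s = nD p ((t : ℝ) / L) ((s : ℝ) / L) / (Real.sinh (p / L) * Real.sinh p) := by
  have hL0 : (0 : ℝ) < L := by exact_mod_cast hL
  unfold GD nD
  rw [Nat.cast_min, Nat.cast_max, min_div_div_right hL0.le, max_div_div_right hL0.le,
    div_mul_cancel₀ _ hL0.ne']
  congr 3
  · ring
  · field_simp

theorem GN_eq {L : ℕ} (hL : 1 ≤ L) (p : ℝ) (t s : ℕ) :
    GN L (p / L) t s = nN p (1 / (L : ℝ)) ((t : ℝ) / L) ((s : ℝ) / L) /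
      (Real.sinh (p / L) * Real.sinh p) := by
  have hL0 : (0 : ℝ) < L := by exact_mod_cast hL
  unfold GN nN
  rw [Nat.cast_min, Nat.cast_max, min_div_div_right hL0.le, max_div_div_right hL0.le,
    div_mul_cancel₀ _ hL0.ne']
  congr 3
  · field_simp
  · field_simp

/-- the function on the square -/
noncomputable def ΦY (z : ℝ × ℝ × ℝ × ℝ) : ℝ :=
  nN z.1 z.2.1 z.2.2.1 z.2.2.2 * (nD z.1 z.2.2.1 z.2.2.2 + nD z.1 (z.2.2.1 + z.2.1) z.2.2.2 +
    nD z.1 z.2.2.1 (z.2.2.2 + z.2.1) + nD z.1 (z.2.2.1 + z.2.1) (z.2.2.2 + z.2.1))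

theorem ΦY_cont : Continuous ΦY := by
  unfold ΦY nN nD
  have hs := Real.continuous_sinh
  have hc := Real.continuous_cosh
  fun_prop

theorem af_yl : S_YL := by
  refine ⟨fun q => ((q * Real.sinh q) ^ 2)⁻¹ *
    ∫ x in (0 : ℝ)..1, ∫ y in (0 : ℝ)..1, ΦY (q, 0, x, y), ?_⟩
  intro p q hq hp
  have h1 := riem2 ΦY ΦY_cont p q hp
  have h2 := sinh_lim p q hq hp
  have h3 : Tendsto (fun L : ℕ => Real.sinh (p L)) atTop (𝓝 (Real.sinh q)) :=
    (Real.continuous_sinh.tendsto q).comp hp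
  have hsq : 0 < Real.sinh q := Real.sinh_pos_iff.2 hq
  have h4 : Tendsto (fun L : ℕ => (((L : ℝ) * Real.sinh (p L / L) * Real.sinh (p L)) ^ 2)⁻¹) atTop
      (𝓝 (((q * Real.sinh q) ^ 2)⁻¹)) := ((h2.mul h3).pow 2).inv₀ (by positivity)
  refine (h4.mul h1).congr' ?_
  filter_upwards [eventually_ge_atTop 1, hp.eventually (lt_mem_nhds hq)] with L hL hpL
  have hL0 : (0 : ℝ) < L := by exact_mod_cast hL
  have hs1 : 0 < Real.sinh (p L / L) := Real.sinh_pos_iff.2 (by positivity)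
  have hs2 : 0 < Real.sinh (p L) := Real.sinh_pos_iff.2 hpL
  have h5 : YY L (p L / L) = (∑ t ∈ Finset.range L, ∑ s ∈ Finset.range L,
      ΦY (p L, 1 / (L : ℝ), (t : ℝ) / L, (s : ℝ) / L)) /
      (Real.sinh (p L / L) * Real.sinh (p L)) ^ 2 := by
    unfold YY
    rw [Finset.sum_div]
    apply Finset.sum_congr rfl
    intro t _
    rw [Finset.sum_div]
    apply Finset.sum_congr rfl
    intro s _
    rw [GN_eq hL, GD_eq hL, GD_eq hL, GD_eq hL, GD_eq hL]
    unfold ΦY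
    have e1 : (((t + 1 : ℕ) : ℝ)) / L = (t : ℝ) / L + 1 / L := by push_cast; ring
    have e2 : (((s + 1 : ℕ) : ℝ)) / L = (s : ℝ) / L + 1 / L := by push_cast; ring
    rw [e1, e2]
    simp only []
    field_simp
  rw [h5]
  field_simp

end Pool.Agent.Y379.AF
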